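import Pool.Agent.KUR.Main2

/-!
# Uniqueness of free product decompositions of ultrapowers of II_1 factors
-/

open Filter Topology

namespace Pool.Agent.Results.MP_02fb88_an.FreeDecomposition

open Pool.Agent.KUR

universe u

/-- If the free products of the ultrapowers `Q i = (N i)^U` and `P j = (M j)^U` of II_1 factors are
isomorphic then there is a bijection of the finite index sets such that corresponding ultrapowers
are isomorphic; in particular corresponding factors are elementarily equivalent. -/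
theorem result (U : Ultrafilter ℕ) (hU : (U : Filter ℕ) ≤ cofinite)
    (I J : Type) [Finite I] [Nonempty I] [Finite J] [Nonempty J]
    (N Q : I → Type u) [∀ i, CStarAlgebra (N i)] [∀ i, TVN (N i)]
    [∀ i, CStarAlgebra (Q i)] [∀ i, TVN (Q i)]
    (M P : J → Type u) [∀ j, CStarAlgebra (M j)] [∀ j, TVN (M j)]
    [∀ j, CStarAlgebra (P j)] [∀ j, TVN (P j)]
    (hN : ∀ i, IsII1 (N i)) (hM : ∀ j, IsII1 (M j))
    (hQ : ∀ i, IsUltrapower U (N i) (Q i)) (hP : ∀ j, IsUltrapower U (M j) (P j))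
    (A B : Type u) [CStarAlgebra A] [TVN A] [CStarAlgebra B] [TVN B]
    (ι : ∀ i, Q i →⋆ₐ[ℂ] A) (κ : ∀ j, P j →⋆ₐ[ℂ] B)
    (hA : IsFreeProduct Q A ι) (hB : IsFreeProduct P B κ) (φ : A ≃⋆ₐ[ℂ] B) :
    ∃ σ : I ≃ J, ∀ i, ElemEquiv (N i) (M (σ i)) ∧ Nonempty (Q i ≃⋆ₐ[ℂ] P (σ i)) := by
  have hU' : (U : Filter ℕ) ≤ atTop := by rwa [← Nat.cofinite_eq_atTop]
  have hAf : IsII1 A := isII1_of_free hU' hN hQ hA
  have hφ : ∀ x : A, tr (φ x) = tr x := trPres_of_equiv hAf φ
  have hφ' : ∀ y : B, tr (φ.symm y) = tr y := fun y => by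
    rw [← hφ (φ.symm y), φ.apply_symm_apply]
  have hn2 : ∀ y : B, n2 (φ.symm y) = n2 y := fun y => by
    rw [n2, n2, ← map_star, ← map_mul, hφ']
  have hκ : IsFreeProduct P A (fun j => ((φ.symm : B →⋆ₐ[ℂ] A)).comp (κ j)) := by
    refine ⟨fun j a => ?_, fun l hl hc ht => ?_, fun x ε hε => ?_⟩
    · show tr (φ.symm (κ j a)) = tr a
      rw [hφ', hB.1]
    · have h1 := hB.2.1 l hl hc ht
      have h2 : (l.map fun p => (((φ.symm : B →⋆ₐ[ℂ] A)).comp (κ p.1)) p.2).prod =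
          φ.symm ((l.map fun p => κ p.1 p.2).prod) := by
        rw [map_list_prod, List.map_map]
        rfl
      rw [h2, hφ', h1]
    · obtain ⟨y, hy, hy'⟩ := hB.2.2 (φ x) ε hε
      refine ⟨φ.symm y, ?_, ?_⟩
      · have h3 : Algebra.adjoin ℂ (⋃ j, Set.range (κ j)) ≤
            (Algebra.adjoin ℂ (⋃ j, Set.range
              ((((φ.symm : B →⋆ₐ[ℂ] A)).comp (κ j) : P j →⋆ₐ[ℂ] A) : P j → A))).comap
              ((φ.symm : B →⋆ₐ[ℂ] A)).toAlgHom := by
          apply Algebra.adjoin_le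
          intro z hz
          obtain ⟨j, hj⟩ := Set.mem_iUnion.mp hz
          obtain ⟨w, rfl⟩ := hj
          apply Algebra.subset_adjoin
          exact Set.mem_iUnion.mpr ⟨j, ⟨w, rfl⟩⟩
        exact h3 hy
      · have h4 : x - φ.symm y = φ.symm (φ x - y) := by
          rw [map_sub, φ.symm_apply_apply]
        rw [h4, hn2]
        exact hy'
  obtain ⟨σ, hσ⟩ := uniqueness hU' hN hM hQ hP hA hκ
  refine ⟨σ, fun i => ⟨?_, hσ i⟩⟩
  exact ⟨ℕ, ℕ, U, U, Q i, P (σ i), inferInstance, inferInstance, inferInstance, inferInstance,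
    hQ i, hP (σ i), hσ i⟩

end Pool.Agent.Results.MP_02fb88_an.FreeDecomposition
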